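import Pool.Agent.Q325.SI.Two
import Pool.Agent.Q325.SI.TaskAdj
import Pool.Agent.Q325.SI.TaskP5
import Pool.Agent.Q325.SI.TaskBwdG
import Pool.Agent.Q325.SI.TaskFwdG
import Pool.Agent.Q325.SI.TaskHall
import Pool.Agent.Q325.SI.TaskSizes
import Pool.Agent.Q325.SI.TaskNumF
import Pool.Agent.Q325.SI.TaskBox
import Pool.Agent.Q325.SI.TaskNumB
import Pool.Agent.Q325.SI.TaskPoly
import Pool.Agent.Q325.SI.TaskPolyP5
import Pool.Agent.Q325.SI.TaskMem

/-!
# Subgraph Isomorphism on `P_5`- and on `2P_5`-subgraph-free graphs is NP-complete

Idea: reduction from 3SAT. The host is a disjoint union of double stars, the pattern a disjoint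
union of double stars and stars. Every job `i` has the two host double stars `T i = (A, b)` and
`F i = (a, B)` with `a < A`, `b < B` leaves and the pattern double star `(a, b)`. Compared with
`(a, b)`, the host `T i` costs the interval `(a, A]`, the host `F i` the interval `(b, B]` of
thresholds, and the stars of the pattern allow only a bounded number of such intervals over every
threshold. The variables are jobs with two long intervals, over the positions of their negative and
positive occurrences; the occurrences of literals are jobs with two intervals of length one, one at
a position covered by the variable (capacity one), the other at the clause (capacity two of three).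
No host lies in the box `[a, A) x [b, B)` of a job `i`, so that every host of the pattern `i` costs
at least one of the two intervals of `i`.
-/

namespace Pool.Agent.Results.MP_143e72_lc.PathFiveNPComplete

open Pool.Agent.NPC Pool.Agent.NPC.Q325SI

/-- Subgraph Isomorphism on graphs without a path on five vertices is NP-complete, and so is
Subgraph Isomorphism on graphs without two disjoint paths on five vertices. -/
theorem result : (InNPP SI5 ∧ NPHardP SI5) ∧ (InNPP SI55 ∧ NPHardP SI55) :=
  ⟨final TaskAdj_proof TaskBwdG_proof TaskFwdG_proof TaskSizes_proof TaskBox_proof TaskNumB_proof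
    TaskNumF_proof TaskHall_proof TaskP5_proof (TaskPoly_proof TaskSizes_proof)
    TaskPolyP5_proof TaskMem_proof,
  final55 TaskAdj_proof TaskBwdG_proof TaskFwdG_proof TaskSizes_proof TaskBox_proof
    TaskNumB_proof TaskNumF_proof TaskHall_proof TaskP5_proof (TaskPoly_proof TaskSizes_proof)⟩

end Pool.Agent.Results.MP_143e72_lc.PathFiveNPComplete
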